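import Pool.Agent.X42.OddTwo.Basic

/-!
# Five-cycle double covers of cubic graphs of oddness two through prescribed circuits

Let `G` be a finite cubic graph with a 2-factor `F` with exactly two odd circuits.  Let `C` be a
circuit of `G` which meets both odd circuits of `F` and for which `G - E(C)` is connected.  Then `C`
is a member of a 5-cycle double cover of `G`.  The same is true for even subgraphs `A` instead of
`C`, if one of the circuits of `A` meets both odd circuits of `F` and `G - E(A)` is connected; so
all the circuits of such an `A` are contained in a 5-cycle double cover.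

Proof.  Let `x`, `y` be vertices of the two odd circuits on the same circuit of `A`.  Colour the edges
of `F` by `(1,0)` and `(0,1)` so that only at `x` and at `y` two edges of `F` have the same colour,
and all other edges by `(1,1)`.  Adding a path in `A` from `x` to `y` to both coordinates gives two
even sets `B`, `C` which cover all edges outside of `A`.  As `G - E(A)` is connected, `A ∩ B ∩ C` can
be extended by edges outside of `A` to an even set `Z`, and the five sets are `A`, `Z`, `Z + B`,
`Z + C`, `Z + A + B + C`.
-/

set_option autoImplicit false

namespace Pool.Agent.Results.MP_7cf8d2_co.CircuitsThroughOddCircuits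

open Finset Pool.Agent.H126R2.CDC Pool.Agent.X60.SDC Pool.Agent.X42.OddTwo

/-- `G - E(A)` is connected: no proper nonempty set of vertices is closed under the edges outside
of `A`. -/
def NonSeparating {V E : Type} [Fintype V] [DecidableEq V] [Fintype E] [DecidableEq E]
    (G : MGraph V E) (A : Finset E) : Prop :=
  ∀ X : Finset V, Closed G Aᶜ X → X = ∅ ∨ X = univ

/-- `A` is the first member of a 5-cycle double cover. -/
def InFiveCDC {V E : Type} [Fintype V] [DecidableEq V] [Fintype E] [DecidableEq E]
    (G : MGraph V E) (A : Finset E) : Prop :=
  ∃ D : Fin 5 → Finset E, (∀ i, G.IsEven (D i)) ∧ D 0 = A ∧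
    ∀ e : E, (univ.filter fun i : Fin 5 => e ∈ D i).card = 2

/-- **Theorem.** Let `G` be a finite cubic graph, `F` a 2-factor of `G` whose only odd circuits are
the one through `x` and the one through `y`. -/
theorem result {V E : Type} [Fintype V] [DecidableEq V] [Fintype E] [DecidableEq E]
    (G : MGraph V E) (hdeg : ∀ w, G.deg univ w = 3) (F : Finset E) (hF : ∀ w, G.deg F w = 2)
    (x y : V) (hxy : OddAt G F x y) :
    -- circuits through `x` and `y`
    (∀ C : Finset E, G.IsCircuit C → (∃ e ∈ C, x ∈ G.ends e) → (∃ e ∈ C, y ∈ G.ends e) →
      NonSeparating G C → InFiveCDC G C) ∧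
    -- even subgraphs for which `x` and `y` are in the same component
    (∀ A : Finset E, G.IsEven A → Linked G A x y → NonSeparating G A → InFiveCDC G A) := by
  refine ⟨?_, ?_⟩
  · intro C hC hx hy hcon
    exact five_cdc G hdeg F hF x y hxy C hC.isEven (linked_of_circuit G C hC x y hx hy) hcon
  · intro A hA hl hcon
    exact five_cdc G hdeg F hF x y hxy A hA hl hcon

end Pool.Agent.Results.MP_7cf8d2_co.CircuitsThroughOddCircuits
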